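import Mathlib
import Pool.Agent.Q259.Ricci

/-!
# Attaching a leaf at a vertex of degree three can lower the largest eigenvalue of the Ricci matrix

The tree `T` has a root of degree `3`; the vertices at distance `1`, `2`, `3` from the root have
degree `16`, those at distance `4` are leaves (`10849` vertices). The largest eigenvalue of its Ricci
matrix is at least `1.05349`. After attaching a leaf at the root it is at most `1.05341`.
-/

set_option autoImplicit false

namespace Pool.Agent.Results.MP_1a9240_co.LeafLowers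

open Matrix Finset Pool.Agent.Q259.Ricci
open scoped Classical

abbrev L1 := Fin 3
abbrev L2 := L1 × Fin 15
abbrev L3 := L2 × Fin 15
abbrev L4 := L3 × Fin 15

/-- The vertices: the root and the vertices at distance `1`, `2`, `3`, `4`. -/
abbrev VT := Unit ⊕ L1 ⊕ L2 ⊕ L3 ⊕ L4

/-- `y` is a child of `x`. -/
def child : VT → VT → Prop
  | .inl _, .inr (.inl _) => True
  | .inr (.inl a), .inr (.inr (.inl b)) => b.1 = a
  | .inr (.inr (.inl b)), .inr (.inr (.inr (.inl c))) => c.1 = b
  | .inr (.inr (.inr (.inl c))), .inr (.inr (.inr (.inr d))) => d.1 = c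
  | _, _ => False

/-- The distance to the root. -/
def lev : VT → ℕ
  | .inl _ => 0
  | .inr (.inl _) => 1
  | .inr (.inr (.inl _)) => 2
  | .inr (.inr (.inr (.inl _))) => 3
  | .inr (.inr (.inr (.inr _))) => 4

lemma child_lev {x y : VT} (h : child x y) : lev y = lev x + 1 := by
  rcases x with _ | a | b | c | d <;> rcases y with _ | a' | b' | c' | d' <;>
    first | rfl | exact absurd h (by simp [child])

/-- The tree. -/
def T : SimpleGraph VT where
  Adj x y := child x y ∨ child y x
  symm := ⟨fun _ _ h => h.symm⟩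
  loopless := ⟨fun x h => by
    rcases h with h | h <;> have := child_lev h <;> omega⟩

/-- The root. -/
def root : VT := .inl ()

/-- Edge functions which depend on the level only. -/
def lf (φ : ℕ → ℝ) : Sym2 VT → ℝ :=
  Sym2.lift ⟨fun x y => φ (max (lev x) (lev y)), fun x y => by
    show φ (max (lev x) (lev y)) = φ (max (lev y) (lev x))
    rw [max_comm]⟩

lemma lf_mk (φ : ℕ → ℝ) (x y : VT) : lf φ s(x, y) = φ (max (lev x) (lev y)) := rfl

/-- The sum of a level function over the edges at a vertex of level `k`. -/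
def SS (φ : ℕ → ℝ) (k : ℕ) : ℝ :=
  if k = 0 then 3 * φ 1 else if k = 4 then φ 4 else φ k + 15 * φ (k + 1)

lemma sum_fst {α : Type} [Fintype α] (a : α) (c : ℝ) (dec : ∀ x : α × Fin 15, Decidable (x.1 = a)) :
    ∑ x : α × Fin 15, (@ite ℝ (x.1 = a) (dec x) c 0) = 15 * c := by
  rw [Fintype.sum_prod_type]
  have h : ∀ x : α, ∑ y : Fin 15, (@ite ℝ (x = a) (dec (x, y)) c 0) =
      if x = a then 15 * c else 0 := by
    intro x
    by_cases hx : x = a
    · simp [hx]
    · simp [hx]
  rw [Finset.sum_congr rfl (fun x _ => h x), Finset.sum_ite_eq', if_pos (Finset.mem_univ _)]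

lemma FF_lf (φ : ℕ → ℝ) (x : VT) : FF T (lf φ) x = SS φ (lev x) := by
  unfold FF
  rw [Fintype.sum_sum_type, Fintype.sum_sum_type, Fintype.sum_sum_type, Fintype.sum_sum_type]
  rcases x with _ | a | b | c | d
  · simp [T, child, lf_mk, lev, SS]
  · simp [T, child, lf_mk, lev, SS, sum_fst]
  · simp [T, child, lf_mk, lev, SS, sum_fst]
  · simp [T, child, lf_mk, lev, SS, sum_fst]
  · simp [T, child, lf_mk, lev, SS]

lemma adj_lev {x y : VT} (h : T.Adj x y) :
    (lev y = lev x + 1 ∧ lev y ≤ 4) ∨ (lev x = lev y + 1 ∧ lev x ≤ 4) := by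
  have h4 : ∀ z : VT, lev z ≤ 4 := by
    rintro (_ | _ | _ | _ | _) <;> simp [lev]
  rcases h with h | h
  · exact Or.inl ⟨child_lev h, h4 y⟩
  · exact Or.inr ⟨child_lev h, h4 x⟩

lemma dg_T (x : VT) : dg T x = SS (fun _ => 1) (lev x) := by
  rw [dg_eq, ← FF_lf]
  rfl

/-- The parent. -/
def par : VT → VT
  | .inl _ => root
  | .inr (.inl _) => root
  | .inr (.inr (.inl b)) => .inr (.inl b.1)
  | .inr (.inr (.inr (.inl c))) => .inr (.inr (.inl c.1))
  | .inr (.inr (.inr (.inr d))) => .inr (.inr (.inr (.inl d.1)))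

lemma par_spec (x : VT) (h : lev x ≠ 0) : child (par x) x ∧ lev x = lev (par x) + 1 := by
  have h1 : child (par x) x := by
    rcases x with _ | _ | _ | _ | _ <;> simp_all [child, par, root, lev]
  exact ⟨h1, child_lev h1⟩

lemma reach : ∀ (k : ℕ) (x : VT), lev x = k → T.Reachable root x := by
  intro k
  induction k with
  | zero =>
    intro x hx
    rcases x with x | _ | _ | _ | _
    · exact SimpleGraph.Reachable.refl _
    all_goals simp [lev] at hx
  | succ k ih =>
    intro x hx
    obtain ⟨h1, h2⟩ := par_spec x (by omega)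
    exact (ih (par x) (by omega)).trans (SimpleGraph.Adj.reachable (Or.inl h1))

lemma connected : T.Connected := by
  have : Nonempty VT := ⟨root⟩
  exact ⟨fun a b => (reach _ a rfl).symm.trans (reach _ b rfl)⟩

lemma card_VT : Fintype.card VT = 10849 := by
  simp [Fintype.card_sum, Fintype.card_prod]

lemma sum_lev (g : ℕ → ℝ) : ∑ x : VT, g (lev x) =
    g 0 + 3 * g 1 + 45 * g 2 + 675 * g 3 + 10125 * g 4 := by
  rw [Fintype.sum_sum_type, Fintype.sum_sum_type, Fintype.sum_sum_type, Fintype.sum_sum_type]
  simp only [lev, Finset.sum_const, Finset.card_univ, Fintype.card_prod, Fintype.card_fin,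
    Fintype.card_unit, nsmul_eq_mul]
  push_cast
  ring

lemma isTree : T.IsTree := by
  rw [SimpleGraph.isTree_iff_connected_and_card]
  refine ⟨connected, ?_⟩
  have e1 : Nat.card T.edgeSet = T.edgeFinset.card := by
    rw [SimpleGraph.edgeFinset_card, Nat.card_eq_fintype_card]
  have e2 : Nat.card VT = 10849 := by
    rw [Nat.card_eq_fintype_card]; exact card_VT
  rw [e1, e2]
  have h1 := T.sum_degrees_eq_twice_card_edges
  have h2 : ((∑ x : VT, T.degree x : ℕ) : ℝ) = 21696 := by
    push_cast
    have h3 : ∀ x : VT, (T.degree x : ℝ) = SS (fun _ => 1) (lev x) := by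
      intro x
      rw [← dg_T]
      exact degree_eq x
    rw [Finset.sum_congr rfl (fun x _ => h3 x), sum_lev]
    simp [SS]
    norm_num
  have h4 : ∑ x : VT, T.degree x = 21696 := by exact_mod_cast h2
  rw [h1] at h4
  have h5 : T.edgeFinset.card = 10848 := by omega
  rw [h5]

lemma nonempty_edges : T.edgeSet.Nonempty :=
  ⟨s(root, .inr (.inl 0)), (Or.inl trivial : T.Adj root (.inr (.inl 0)))⟩

/-- Level values of a subsolution for `T`. -/
def φ : ℕ → ℝ
  | 1 => 1
  | 2 => 0.83484
  | 3 => 0.203595
  | 4 => 0.0102535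
  | _ => 0

/-- Level values of a supersolution for the tree with the additional leaf; the value at the new
edge is that of level `5`. -/
def ψ : ℕ → ℝ
  | 1 => 1
  | 2 => 0.8368035
  | 3 => 0.2041495
  | 4 => 0.0102825
  | 5 => 0.325605
  | _ => 0

lemma lower : 1.05349 ≤ lam T := by
  refine le_lam nonempty_edges (lf φ) ?_ _ ?_
  · intro x y h
    rw [lf_mk]
    rcases adj_lev h with ⟨h1, h2⟩ | ⟨h1, h2⟩
    · rw [h1] at h2 ⊢
      rw [max_eq_right (by omega)]
      have h3 : lev x ≤ 3 := by omega
      generalize lev x = k at h3 ⊢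
      interval_cases k <;> norm_num [φ]
    · rw [h1] at h2 ⊢
      rw [max_eq_left (by omega)]
      have h3 : lev y ≤ 3 := by omega
      generalize lev y = k at h3 ⊢
      interval_cases k <;> norm_num [φ]
  · intro x y h
    rw [lf_mk, FF_lf, FF_lf, dg_T, dg_T]
    rcases adj_lev h with ⟨h1, h2⟩ | ⟨h1, h2⟩
    · rw [h1] at h2 ⊢
      rw [max_eq_right (by omega)]
      have h3 : lev x ≤ 3 := by omega
      generalize lev x = k at h3 ⊢
      interval_cases k <;> norm_num [φ, SS]
    · rw [h1] at h2 ⊢
      rw [max_eq_left (by omega)]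
      have h3 : lev y ≤ 3 := by omega
      generalize lev y = k at h3 ⊢
      interval_cases k <;> norm_num [φ, SS]

/-- The levels of the tree with the additional leaf, which gets the level `5`. -/
def lev' : Option VT → ℕ
  | some x => lev x
  | none => 5

/-- Edge functions which depend on the level only. -/
def lf' (φ : ℕ → ℝ) : Sym2 (Option VT) → ℝ :=
  Sym2.lift ⟨fun x y => φ (max (lev' x) (lev' y)), fun x y => by
    show φ (max (lev' x) (lev' y)) = φ (max (lev' y) (lev' x))
    rw [max_comm]⟩

lemma lf'_mk (φ : ℕ → ℝ) (x y : Option VT) : lf' φ s(x, y) = φ (max (lev' x) (lev' y)) := rfl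

/-- The tree with the additional leaf. -/
abbrev T' : SimpleGraph (Option VT) := attachLeaf T root

lemma FF_some (φ : ℕ → ℝ) (x : VT) : FF T' (lf' φ) (some x) =
    SS φ (lev x) + if lev x = 0 then φ 5 else 0 := by
  have e1 : ∑ z : VT, (if T'.Adj (some x) (some z) then lf' φ s(some x, some z) else 0) =
      SS φ (lev x) := by
    rw [← FF_lf]
    rfl
  have h1 : T'.Adj (some x) none ↔ lev x = 0 := by
    show x = root ↔ lev x = 0
    rcases x with x | _ | _ | _ | _ <;> simp [root, lev]
  have e2 : (if T'.Adj (some x) none then lf' φ s(some x, none) else 0) =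
      if lev x = 0 then φ 5 else 0 := by
    by_cases h : lev x = 0
    · rw [if_pos (h1.2 h), if_pos h, lf'_mk]
      have h5 : max (lev' (some x)) (lev' none) = 5 := by
        show max (lev x) 5 = 5
        rw [h]; rfl
      rw [h5]
    · rw [if_neg (fun h2 => h (h1.1 h2)), if_neg h]
  unfold FF
  rw [Fintype.sum_option, add_comm, e1, e2]

lemma FF_none (φ : ℕ → ℝ) : FF T' (lf' φ) none = φ 5 := by
  unfold FF
  rw [Fintype.sum_option]
  have h1 : ¬ T'.Adj none none := fun h => h
  rw [if_neg h1, zero_add, Finset.sum_eq_single root]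
  · have h2 : T'.Adj none (some root) := rfl
    rw [if_pos h2]
    rfl
  · intro b _ hb
    have h2 : ¬ T'.Adj none (some b) := fun h => hb h
    rw [if_neg h2]
  · intro h; exact absurd (Finset.mem_univ _) h

lemma dg_some (x : VT) : dg T' (some x) = SS (fun _ => 1) (lev x) + if lev x = 0 then 1 else 0 := by
  rw [dg_eq, ← FF_some]
  rfl

lemma dg_none : dg T' none = 1 := by
  rw [dg_eq]
  exact FF_none (fun _ => 1)

lemma upper : lam T' ≤ 1.05341 := by
  have hne : T'.edgeSet.Nonempty := by
    refine ⟨s(none, some root), ?_⟩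
    rw [SimpleGraph.mem_edgeSet]
    exact (rfl : root = root)
  refine lam_le hne (lf' ψ) ?_ _ ?_
  · rintro (_ | x) (_ | y) h
    · exact absurd h (fun h => h)
    · have hy : y = root := h
      subst hy
      rw [lf'_mk]
      show 0 < ψ 5
      norm_num [ψ]
    · have hy : x = root := h
      subst hy
      rw [lf'_mk]
      show 0 < ψ 5
      norm_num [ψ]
    · rw [lf'_mk]
      show 0 < ψ (max (lev x) (lev y))
      rcases adj_lev (show T.Adj x y from h) with ⟨h1, h2⟩ | ⟨h1, h2⟩
      · rw [h1] at h2 ⊢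
        rw [max_eq_right (by omega)]
        have h3 : lev x ≤ 3 := by omega
        generalize lev x = k at h3 ⊢
        interval_cases k <;> norm_num [ψ]
      · rw [h1] at h2 ⊢
        rw [max_eq_left (by omega)]
        have h3 : lev y ≤ 3 := by omega
        generalize lev y = k at h3 ⊢
        interval_cases k <;> norm_num [ψ]
  · rintro (_ | x) (_ | y) h
    · exact absurd h (fun h => h)
    · have hy : y = root := h
      subst hy
      rw [lf'_mk, FF_none, FF_some, dg_none, dg_some]
      show ψ 5 / 1 + (SS ψ 0 + if (0 : ℕ) = 0 then ψ 5 else 0) /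
        (SS (fun _ => 1) 0 + if (0 : ℕ) = 0 then 1 else 0) - 2 * (1 / 1 + 1 /
          (SS (fun _ => 1) 0 + if (0 : ℕ) = 0 then 1 else 0)) * ψ 5 ≤ 1.05341 * ψ 5
      norm_num [ψ, SS]
    · have hy : x = root := h
      subst hy
      rw [lf'_mk, FF_none, FF_some, dg_none, dg_some]
      show (SS ψ 0 + if (0 : ℕ) = 0 then ψ 5 else 0) /
        (SS (fun _ => 1) 0 + if (0 : ℕ) = 0 then 1 else 0) + ψ 5 / 1 - 2 * (1 /
          (SS (fun _ => 1) 0 + if (0 : ℕ) = 0 then 1 else 0) + 1 / 1) * ψ 5 ≤ 1.05341 * ψ 5
      norm_num [ψ, SS]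
    · rw [lf'_mk, FF_some, FF_some, dg_some, dg_some]
      show _ / _ + _ / _ - _ * ψ (max (lev x) (lev y)) ≤ _ * ψ (max (lev x) (lev y))
      rcases adj_lev (show T.Adj x y from h) with ⟨h1, h2⟩ | ⟨h1, h2⟩
      · rw [h1] at h2 ⊢
        rw [max_eq_right (by omega)]
        have h3 : lev x ≤ 3 := by omega
        generalize lev x = k at h3 ⊢
        interval_cases k <;> norm_num [ψ, SS]
      · rw [h1] at h2 ⊢
        rw [max_eq_left (by omega)]
        have h3 : lev y ≤ 3 := by omega
        generalize lev y = k at h3 ⊢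
        interval_cases k <;> norm_num [ψ, SS]

/-- There are a finite tree `T` and a vertex `v` of degree three such that attaching a leaf at `v`
lowers the largest eigenvalue of the Ricci matrix. -/
theorem result : ∃ (V : Type) (_ : Fintype V) (T : SimpleGraph V) (v : V),
    T.IsTree ∧ dg T v = 3 ∧ lam (attachLeaf T v) < lam T := by
  refine ⟨VT, inferInstance, T, root, isTree, ?_, ?_⟩
  · rw [dg_T]
    show SS (fun _ => 1) 0 = 3
    norm_num [SS]
  · have h1 := lower
    have h2 := upper
    have h3 : lam (attachLeaf T root) = lam T' := rfl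
    rw [h3]
    norm_num at h1 h2 ⊢
    linarith

end Pool.Agent.Results.MP_1a9240_co.LeafLowers
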